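import Mathlib
import Pool.Agent.Lib.MP_251106_co.Main

set_option autoImplicit false

/-!
# The shape of the two sequences outside of the middle range

For all `n ≥ 3` and each of the two sequences `a`, `b`:
* first half: for `1 ≤ k < n / 2`, `0 ≤ a_k ≤ a_{k+1}` and `(n - k) a_k ≤ k a_{k+1}`;
* support: `a_k > 0` implies `a_{k+1} > 0` for `k ≤ n - 3`, and `a_k > 0` for `n ≥ 12` and
  `n / 2 + 2 ≤ k ≤ n - 2`;
* last part: if `k ≤ n - 2` and `2^30 (n - k)^11 ≤ n`, then `0 < a_k`, `a_{k+1} < a_k`,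
  `n^2 a_{k+1} ≤ 2^66 (n - k)^15 a_k`, and `a_{k-1} a_{k+1} ≤ 2^66 (n - k)^15 a_k^2`.

All inequalities hold for the numbers of non-trivial common partitions of every pair of trees.
First half: root `T` at a leaf. From a common partition with `k` classes split off a leaf `x` of a
class `C` with at least three elements such that the path from `x` to the root meets the subtree
spanned by the rest of `C`; `x` determines `C`, and a weighted double counting gives the inequality.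
Last part: for a common partition with `k + 1` classes a cell of at least `n / (2 (n - k)^2)`
one-element classes is blocked by at most two classes, one in each tree. Dissolve these two classes
and join pairs inside of the cell, one more pair than the number of classes gained by dissolving.
-/

namespace Pool.Agent.Results.MP_251106_co.Shape

open Pool.Agent.Lib.MP_251106_co

theorem result (n : ℕ) (hn : 3 ≤ n) :
    (∀ k : ℕ, 1 ≤ k → 2 * k < n →
      (0 ≤ a n k ∧ a n k ≤ a n (k + 1) ∧ ((n : ℤ) - k) * a n k ≤ k * a n (k + 1)) ∧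
      (0 ≤ b n k ∧ b n k ≤ b n (k + 1) ∧ ((n : ℤ) - k) * b n k ≤ k * b n (k + 1))) ∧
    (∀ k : ℕ, 1 ≤ k → k + 3 ≤ n →
      (0 < a n k → 0 < a n (k + 1)) ∧ (0 < b n k → 0 < b n (k + 1))) ∧
    (12 ≤ n → ∀ k : ℕ, n + 4 ≤ 2 * k → k ≤ n - 2 → 0 < a n k ∧ 0 < b n k) ∧
    (∀ k : ℕ, k ≤ n - 2 → 2 ^ 30 * (n - k) ^ 11 ≤ n →
      (0 < a n k ∧ a n (k + 1) < a n k ∧
        (n : ℤ) ^ 2 * a n (k + 1) ≤ 2 ^ 66 * ((n : ℤ) - k) ^ 15 * a n k ∧
        a n (k - 1) * a n (k + 1) ≤ 2 ^ 66 * ((n : ℤ) - k) ^ 15 * a n k ^ 2) ∧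
      (0 < b n k ∧ b n (k + 1) < b n k ∧
        (n : ℤ) ^ 2 * b n (k + 1) ≤ 2 ^ 66 * ((n : ℤ) - k) ^ 15 * b n k ∧
        b n (k - 1) * b n (k + 1) ≤ 2 ^ 66 * ((n : ℤ) - k) ^ 15 * b n k ^ 2)) := by
  obtain ⟨T, hT⟩ := exists_caterpillar hn
  have x0 : Fin n := ⟨0, by omega⟩
  obtain ⟨f1, p1, q1⟩ := all_main hn (fun _ => True) ⟨T, trivial⟩
  obtain ⟨f2, p2, q2⟩ := all_main hn PhyloTree.IsCaterpillar ⟨T, hT⟩
  refine ⟨?_, ?_, ?_, ?_⟩
  · intro k hk1 hk
    have h1 := f1 k hk1 hk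
    have h2 := f2 k hk1 hk
    simp only [← a_eq_val] at h1
    simp only [← b_eq_val] at h2
    exact ⟨h1, h2⟩
  · intro k hk1 hk
    have key : ∀ Pr : PhyloTree n → Prop, (∃ T, Pr T) → 0 < val Pr k → 0 < val Pr (k + 1) := by
      intro Pr hex h0
      have h1 := val_growth x0 Pr hex (by omega : 2 ≤ k + 1) (by omega : k + 1 + 2 ≤ n)
      rw [Nat.add_sub_cancel] at h1
      have h2 := h0.trans_le h1
      by_contra hcon
      have h3 : (n : ℤ) ^ 2 * val Pr (k + 1) ≤ 0 :=
        mul_nonpos_of_nonneg_of_nonpos (by positivity) (not_lt.1 hcon)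
      linarith
    rw [a_eq_val, a_eq_val, b_eq_val, b_eq_val]
    exact ⟨key _ ⟨T, trivial⟩, key _ ⟨T, hT⟩⟩
  · intro h12 k h1 h2
    have h3 := p1 h12 k h1 (by omega)
    have h4 := p2 h12 k h1 (by omega)
    simp only [← a_eq_val] at h3
    simp only [← b_eq_val] at h4
    exact ⟨h3, h4⟩
  · intro k hk hnk
    have hk2 : k + 2 ≤ n := by omega
    have hbig : 4 * (n - k) + 12 ≤ n := by
      have h1 : n - k ≤ (n - k) ^ 11 := Nat.le_self_pow (by norm_num) _
      omega
    have h1 := q1 k hk2 hnk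
    have h2 := q2 k hk2 hnk
    have h3 := p1 (by omega) k (by omega) hk2
    have h4 := p2 (by omega) k (by omega) hk2
    simp only [← a_eq_val] at h1 h3
    simp only [← b_eq_val] at h2 h4
    exact ⟨⟨h3, h1⟩, ⟨h4, h2⟩⟩

end Pool.Agent.Results.MP_251106_co.Shape
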